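import Pool.Agent.H39R3.PB.Basic

/-! helper39's project (palindromes in base `b`), task T2: second moment of any block by the divisor
bound (port of `Pool.Agent.H898R2.PalT2` from base 10). -/

set_option autoImplicit false

namespace Pool.Agent.H830R3.PB.T2

open Finset Pool.Agent.Helper112 Pool.Agent.H39R3.PB

/-- the number with digits `m` -/
def NN (b L A J : ℕ) (m : Fin J → Fin b) : ℕ := ∑ j : Fin J, (m j : ℕ) * fr b L (A + j)

theorem fr_dvd {b L c c' : ℕ} (h : c < c') (hc : c' ≤ L) : b * b ^ (L - c') ∣ fr b L c := by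
  have e : b * b ^ (L - c') = b ^ (L - c' + 1) := by ring
  rw [e]
  unfold fr
  split_ifs with h0
  · exact pow_dvd_pow b (by omega)
  · exact dvd_add (pow_dvd_pow b (by omega)) (pow_dvd_pow b (by omega))

theorem fr_top {b L c : ℕ} (hc : c ≤ L) : ∃ k, fr b L c = b ^ (L - c) + b * b ^ (L - c) * k := by
  unfold fr
  split_ifs with h0
  · refine ⟨0, ?_⟩
    subst h0
    simp
  · refine ⟨b ^ (2 * c - 1), ?_⟩
    have h1 : b * b ^ (L - c) * b ^ (2 * c - 1) = b ^ (L + c) := by
      rw [mul_assoc, ← pow_add, ← pow_succ']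
      congr 1
      omega
    rw [h1, add_comm]

theorem digits_inj {b : ℕ} (hb : 2 ≤ b) (L A : ℕ) (m m' : ℕ → ℕ) (J : ℕ) (hJ : A + J ≤ L)
    (hm : ∀ j, j < J → m j < b) (hm' : ∀ j, j < J → m' j < b)
    (h : ∑ j ∈ range J, m j * fr b L (A + j) = ∑ j ∈ range J, m' j * fr b L (A + j)) :
    ∀ j, j < J → m j = m' j := by
  induction J with
  | zero => intro j hj; omega
  | succ J ih =>
    rw [sum_range_succ, sum_range_succ] at h
    have hd : ∀ n : ℕ → ℕ, b * b ^ (L - (A + J)) ∣ ∑ j ∈ range J, n j * fr b L (A + j) := by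
      intro n
      apply dvd_sum
      intro j hj
      rw [mem_range] at hj
      exact Dvd.dvd.mul_left (fr_dvd (by omega) (by omega)) _
    obtain ⟨s, hs⟩ := hd m
    obtain ⟨s', hs'⟩ := hd m'
    obtain ⟨k, hk⟩ := fr_top (L := L) (c := A + J) (by omega)
    have hb0 : 0 < b := by omega
    have hP : 0 < b ^ (L - (A + J)) := by positivity
    have hcancel : b ^ (L - (A + J)) * (b * s + m J + b * (m J * k)) =
        b ^ (L - (A + J)) * (b * s' + m' J + b * (m' J * k)) := by
      rw [hs, hs', hk] at h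
      linarith
    have h2 := Nat.eq_of_mul_eq_mul_left hP hcancel
    have h3 := hm J (by omega)
    have h4 := hm' J (by omega)
    have h5 : m J = m' J := by
      have e1 : ∀ u v w : ℕ, v < b → (b * u + v + b * w) % b = v := by
        intro u v w hv
        rw [show b * u + v + b * w = v + b * (u + w) by ring, Nat.add_mul_mod_self_left,
          Nat.mod_eq_of_lt hv]
      rw [← e1 s (m J) (m J * k) h3, h2, e1 s' (m' J) (m' J * k) h4]
    rw [h5] at h
    have h6 := ih (by omega) (fun j hj => hm j (by omega)) (fun j hj => hm' j (by omega))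
      (Nat.add_right_cancel h)
    intro j hj
    rcases Nat.lt_succ_iff_lt_or_eq.1 hj with h7 | h7
    · exact h6 j h7
    · rw [h7]
      exact h5

theorem NN_inj {b : ℕ} (hb : 2 ≤ b) (L A J : ℕ) (hJ : A + J ≤ L) :
    Function.Injective (NN b L A J) := by
  intro m m' h
  have h1 : ∀ n : Fin J → Fin b, NN b L A J n =
      ∑ j ∈ range J, (if hj : j < J then ((n ⟨j, hj⟩ : Fin b) : ℕ) else 0) * fr b L (A + j) := by
    intro n
    unfold NN
    rw [← Fin.sum_univ_eq_sum_range
      (fun j => (if hj : j < J then ((n ⟨j, hj⟩ : Fin b) : ℕ) else 0) * fr b L (A + j))]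
    apply sum_congr rfl
    intro j _
    simp
  rw [h1, h1] at h
  have h2 := digits_inj hb L A _ _ J hJ (fun j hj => by
    rw [dif_pos hj]
    exact Fin.is_lt _) (fun j hj => by
    rw [dif_pos hj]
    exact Fin.is_lt _) h
  funext j
  have h3 := h2 j j.2
  simp only [Fin.is_lt, dif_pos] at h3
  exact Fin.ext h3

theorem fr_le {b : ℕ} (hb : 2 ≤ b) (L c : ℕ) : fr b L c ≤ 2 * b ^ (L + c) := by
  unfold fr
  split_ifs with h
  · subst h
    rw [add_zero]
    exact Nat.le_mul_of_pos_left _ (by norm_num)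
  · have : b ^ (L - c) ≤ b ^ (L + c) := Nat.pow_le_pow_right (by omega) (by omega)
    omega

theorem NN_le {b : ℕ} (hb : 2 ≤ b) (L A J : ℕ) (hJ : A + J ≤ L) (m : Fin J → Fin b) :
    NN b L A J m ≤ b ^ (2 * L + 1) := by
  obtain ⟨e, rfl⟩ : ∃ e, b = e + 1 := ⟨b - 1, by omega⟩
  have h1 : ∀ K : ℕ, ∑ j ∈ range K, e * fr (e + 1) L (A + j) ≤ 2 * (e + 1) ^ (L + A + K) := by
    intro K
    induction K with
    | zero => simp
    | succ K ih =>
      rw [sum_range_succ]
      have h2 := Nat.mul_le_mul_left e (fr_le hb L (A + K))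
      have e1 : 2 * (e + 1) ^ (L + A + (K + 1)) =
          2 * (e + 1) ^ (L + A + K) + e * (2 * (e + 1) ^ (L + (A + K))) := by ring
      rw [e1]
      omega
  calc NN (e + 1) L A J m ≤ ∑ j : Fin J, e * fr (e + 1) L (A + j) := by
        unfold NN
        apply sum_le_sum
        intro j _
        apply Nat.mul_le_mul_right
        have := (m j).is_lt
        omega
    _ = ∑ j ∈ range J, e * fr (e + 1) L (A + j) :=
        Fin.sum_univ_eq_sum_range (fun j => e * fr (e + 1) L (A + j)) J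
    _ ≤ 2 * (e + 1) ^ (L + A + J) := h1 J
    _ ≤ 2 * (e + 1) ^ (2 * L) := by
        apply Nat.mul_le_mul_left
        exact Nat.pow_le_pow_right (by omega) (by omega)
    _ ≤ (e + 1) ^ (2 * L + 1) := by
        rw [pow_succ, mul_comm]
        exact Nat.mul_le_mul_left _ hb

theorem Ps_eq {b : ℕ} (L A J : ℕ) (α : ℝ) :
    Ps b L A J α = ‖∑ m : Fin J → Fin b, ee (NN b L A J m * α)‖ / b ^ J := by
  have h1 : ∑ m : Fin J → Fin b, ee (NN b L A J m * α) =
      ∏ j : Fin J, ∑ d : Fin b, ee ((d : ℕ) * (fr b L (A + j) * α)) := by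
    rw [prod_univ_sum, Fintype.piFinset_univ]
    apply sum_congr rfl
    intro m _
    have h2 : ∀ s : Finset (Fin J), ee ((∑ j ∈ s, ((m j : ℕ) : ℝ) * (fr b L (A + j))) * α) =
        ∏ j ∈ s, ee (((m j : ℕ) : ℝ) * (fr b L (A + j) * α)) := by
      intro s
      induction s using Finset.induction_on with
      | empty => simp [ls_ee_zero]
      | insert a s ha ih =>
        rw [sum_insert ha, prod_insert ha, ← ih, ← ls_ee_add]
        congr 1
        ring
    rw [← h2]
    congr 2
    unfold NN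
    push_cast
    rfl
  rw [h1, norm_prod]
  unfold Ps ph
  rw [prod_div_distrib, prod_const, card_range]
  congr 1
  rw [← Fin.prod_univ_eq_prod_range
    (fun j => ‖∑ m ∈ range b, ee (m * ((fr b L (A + j) : ℝ) * α))‖)]
  apply prod_congr rfl
  intro j _
  congr 1
  exact (Fin.sum_univ_eq_sum_range
    (fun m => ee (m * ((fr b L (A + (j : ℕ)) : ℝ) * α))) b).symm

theorem Ps_sq {b : ℕ} (L A J : ℕ) (α : ℝ) :
    (((Ps b L A J α) ^ 2 : ℝ) : ℂ) = (∑ p : (Fin J → Fin b) × (Fin J → Fin b),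
      ee (((NN b L A J p.1 : ℝ) - NN b L A J p.2) * α)) / b ^ (2 * J) := by
  rw [Ps_eq, div_pow, ← pow_mul, mul_comm J 2]
  push_cast
  congr 1
  rw [← Complex.mul_conj', map_sum, sum_mul_sum, ← univ_product_univ, sum_product]
  apply sum_congr rfl
  intro m _
  apply sum_congr rfl
  intro m' _
  rw [ls_conj_ee, ← ls_ee_add]
  congr 1
  ring

theorem sum_ee (q : ℕ) (hq : 0 < q) (z : ℤ) :
    ∑ a ∈ range q, ee ((z : ℝ) * ((a : ℝ) / q)) = if (q : ℤ) ∣ z then (q : ℂ) else 0 := by
  have hq0 : (q : ℝ) ≠ 0 := by exact_mod_cast hq.ne'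
  have h1 : ∀ a : ℕ, ee ((z : ℝ) * ((a : ℝ) / q)) = ee ((z : ℝ) / q) ^ a := by
    intro a
    rw [← ls_ee_nat_mul]
    congr 1
    ring
  simp only [h1]
  split_ifs with h
  · obtain ⟨k, rfl⟩ := h
    have h2 : (((q : ℤ) * k : ℤ) : ℝ) / q = ((k : ℤ) : ℝ) := by
      push_cast
      field_simp
    rw [h2, ls_ee_int]
    simp
  · have hne : ee ((z : ℝ) / q) ≠ 1 := by
      intro h2
      obtain ⟨k, hk⟩ := ls_ee_eq_one h2
      apply h
      refine ⟨k, ?_⟩
      rw [div_eq_iff hq0] at hk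
      have : (z : ℝ) = ((q * k : ℤ) : ℝ) := by
        rw [hk]
        push_cast
        ring
      exact_mod_cast this
    rw [geom_sum_eq hne, ← ls_ee_nat_mul]
    have h3 : (q : ℝ) * ((z : ℝ) / q) = ((z : ℤ) : ℝ) := by
      field_simp
    rw [h3, ls_ee_int, sub_self, zero_div]

theorem inner_sum {b : ℕ} (L A J q : ℕ) (hq : 0 < q) :
    ∑ a ∈ range q, (Ps b L A J ((a : ℝ) / q)) ^ 2 =
      (∑ p : (Fin J → Fin b) × (Fin J → Fin b),
        if (q : ℤ) ∣ ((NN b L A J p.1 : ℤ) - NN b L A J p.2) then (q : ℝ) else 0) / b ^ (2 * J) := by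
  have h : ((∑ a ∈ range q, (Ps b L A J ((a : ℝ) / q)) ^ 2 : ℝ) : ℂ) =
      (((∑ p : (Fin J → Fin b) × (Fin J → Fin b),
        if (q : ℤ) ∣ ((NN b L A J p.1 : ℤ) - NN b L A J p.2) then (q : ℝ) else 0) / b ^ (2 * J) : ℝ) : ℂ) := by
    rw [Complex.ofReal_sum]
    simp only [Ps_sq]
    rw [← sum_div, sum_comm]
    push_cast
    congr 1
    apply sum_congr rfl
    intro p _
    have h1 := sum_ee q hq ((NN b L A J p.1 : ℤ) - NN b L A J p.2)
    push_cast at h1
    rw [h1]
    split_ifs <;> simp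
  exact_mod_cast h

theorem pair_bound {b : ℕ} (hb : 2 ≤ b) (L A J Q : ℕ) (T : ℝ) (hA : A + J ≤ L)
    (hT : ∀ n : ℕ, 1 ≤ n → n ≤ b ^ (2 * L + 1) → (n.divisors.card : ℝ) ≤ T)
    (p : (Fin J → Fin b) × (Fin J → Fin b)) :
    ∑ q ∈ (Ico Q (2 * Q)).filter (fun q => q.Coprime (2 * b)),
      (if (q : ℤ) ∣ ((NN b L A J p.1 : ℤ) - NN b L A J p.2) then (q : ℝ) else 0) ≤
      if p.1 = p.2 then (2 * Q * Q : ℝ) else 2 * Q * T := by
  have hT0 : 0 ≤ T := by
    have := hT 1 le_rfl (Nat.one_le_pow _ _ (by omega))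
    refine le_trans ?_ this
    positivity
  split_ifs with h
  · calc ∑ q ∈ (Ico Q (2 * Q)).filter (fun q => q.Coprime (2 * b)),
        (if (q : ℤ) ∣ ((NN b L A J p.1 : ℤ) - NN b L A J p.2) then (q : ℝ) else 0)
        ≤ ∑ q ∈ (Ico Q (2 * Q)).filter (fun q => q.Coprime (2 * b)), (2 * Q : ℝ) := by
          apply sum_le_sum
          intro q hq
          rw [mem_filter, mem_Ico] at hq
          have : (q : ℝ) ≤ 2 * Q := by exact_mod_cast hq.1.2.le
          split_ifs
          · exact this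
          · positivity
      _ ≤ ∑ q ∈ Ico Q (2 * Q), (2 * Q : ℝ) :=
          sum_le_sum_of_subset_of_nonneg (filter_subset _ _) (fun _ _ _ => by positivity)
      _ = 2 * Q * Q := by
          rw [sum_const, Nat.card_Ico, nsmul_eq_mul]
          have : 2 * Q - Q = Q := by omega
          rw [this]
          ring
  · have hne : NN b L A J p.1 ≠ NN b L A J p.2 := fun h' => h (NN_inj hb L A J hA h')
    set n := ((NN b L A J p.1 : ℤ) - NN b L A J p.2).natAbs with hn
    have hn1 : 1 ≤ n := by omega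
    have hle1 := NN_le hb L A J hA p.1
    have hle2 := NN_le hb L A J hA p.2
    have hn2 : n ≤ b ^ (2 * L + 1) := by omega
    have hdiv := hT n hn1 hn2
    calc ∑ q ∈ (Ico Q (2 * Q)).filter (fun q => q.Coprime (2 * b)),
        (if (q : ℤ) ∣ ((NN b L A J p.1 : ℤ) - NN b L A J p.2) then (q : ℝ) else 0)
        ≤ ∑ q ∈ Ico Q (2 * Q), (if q ∣ n then (2 * Q : ℝ) else 0) := by
          refine (sum_le_sum_of_subset_of_nonneg (filter_subset _ _)
            (fun _ _ _ => by positivity)).trans ?_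
          apply sum_le_sum
          intro q hq
          rw [mem_Ico] at hq
          have h2 : (q : ℝ) ≤ 2 * Q := by exact_mod_cast hq.2.le
          have h3 : ((q : ℤ) ∣ ((NN b L A J p.1 : ℤ) - NN b L A J p.2)) ↔ q ∣ n := by
            rw [hn, Int.natCast_dvd]
          simp only [h3]
          split_ifs
          · exact h2
          · exact le_rfl
      _ = ((Ico Q (2 * Q)).filter (fun q => q ∣ n)).card * (2 * Q : ℝ) := by
          rw [← sum_filter, sum_const, nsmul_eq_mul]
      _ ≤ (n.divisors.card : ℝ) * (2 * Q : ℝ) := by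
          apply mul_le_mul_of_nonneg_right _ (by positivity)
          have : (Ico Q (2 * Q)).filter (fun q => q ∣ n) ⊆ n.divisors := by
            intro q hq
            rw [mem_filter] at hq
            exact Nat.mem_divisors.2 ⟨hq.2, by omega⟩
          exact_mod_cast card_le_card this
      _ ≤ T * (2 * Q : ℝ) := mul_le_mul_of_nonneg_right hdiv (by positivity)
      _ = 2 * Q * T := by ring

theorem main {b : ℕ} (hb : 2 ≤ b) (L A J Q : ℕ) (T : ℝ) (hA : A + J ≤ L) (h1 : Q ≤ b ^ J)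
    (hT : ∀ n : ℕ, 1 ≤ n → n ≤ b ^ (2 * L + 1) → (n.divisors.card : ℝ) ≤ T) :
    apts b Q (fun α => Ps b L A J α ^ 2) ≤ 2 * Q + 2 * Q * T := by
  rcases Nat.eq_zero_or_pos Q with hQ | hQ
  · subst hQ
    simp [apts]
  have hT0 : 0 ≤ T := by
    have := hT 1 le_rfl (Nat.one_le_pow _ _ (by omega))
    refine le_trans ?_ this
    positivity
  unfold apts
  have h2 : ∑ q ∈ (Ico Q (2 * Q)).filter (fun q => q.Coprime (2 * b)),
      ∑ a ∈ range q, Ps b L A J ((a : ℝ) / q) ^ 2 =
      (∑ p : (Fin J → Fin b) × (Fin J → Fin b),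
        ∑ q ∈ (Ico Q (2 * Q)).filter (fun q => q.Coprime (2 * b)),
        if (q : ℤ) ∣ ((NN b L A J p.1 : ℤ) - NN b L A J p.2) then (q : ℝ) else 0) / b ^ (2 * J) := by
    rw [sum_comm, sum_div]
    apply sum_congr rfl
    intro q hq
    rw [mem_filter, mem_Ico] at hq
    exact inner_sum L A J q (by omega)
  have hb0 : (0 : ℝ) < b := by exact_mod_cast (by omega : 0 < b)
  rw [h2, div_le_iff₀ (by positivity)]
  calc ∑ p : (Fin J → Fin b) × (Fin J → Fin b),
        ∑ q ∈ (Ico Q (2 * Q)).filter (fun q => q.Coprime (2 * b)),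
        (if (q : ℤ) ∣ ((NN b L A J p.1 : ℤ) - NN b L A J p.2) then (q : ℝ) else 0)
      ≤ ∑ p : (Fin J → Fin b) × (Fin J → Fin b),
        (if p.1 = p.2 then (2 * Q * Q : ℝ) else 2 * Q * T) :=
        sum_le_sum (fun p _ => pair_bound hb L A J Q T hA hT p)
    _ ≤ ∑ p : (Fin J → Fin b) × (Fin J → Fin b),
        ((if p.1 = p.2 then (2 * Q * Q : ℝ) else 0) + 2 * Q * T) := by
        apply sum_le_sum
        intro p _
        split_ifs
        · have : 0 ≤ 2 * (Q : ℝ) * T := by positivity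
          linarith
        · linarith
    _ = b ^ J * (2 * Q * Q) + b ^ (2 * J) * (2 * Q * T) := by
        rw [sum_add_distrib, sum_const, card_univ, Fintype.card_prod, Fintype.card_fun,
          Fintype.card_fin, Fintype.card_fin, nsmul_eq_mul]
        congr 1
        · rw [Fintype.sum_prod_type]
          simp only [Finset.sum_ite_eq, mem_univ, if_true]
          rw [sum_const, card_univ, Fintype.card_fun, Fintype.card_fin, Fintype.card_fin,
            nsmul_eq_mul]
          push_cast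
          ring
        · push_cast
          ring
    _ ≤ (2 * Q + 2 * Q * T) * b ^ (2 * J) := by
        have h3 : (Q : ℝ) ≤ b ^ J := by exact_mod_cast h1
        have h4 : (b : ℝ) ^ J * (2 * Q * Q) ≤ b ^ J * (2 * Q * b ^ J) := by gcongr
        have h5 : (b : ℝ) ^ (2 * J) = b ^ J * b ^ J := by rw [two_mul, pow_add]
        rw [h5]
        nlinarith

theorem taskT2 : TaskT2 := fun _ hb L A J Q T hA h1 hT => main hb L A J Q T hA h1 hT

end Pool.Agent.H830R3.PB.T2
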